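import Mathlib

/-!
# Project SR (MP_bb782b_co): covering by common independent sets of two matroids

All statements are closed propositions.  `S_EX1`, `S_EX2`, `S_EX`, `S_STEP`, `S_MAIN` are proved from
the earlier ones.  Paper proof: see the docstrings.
-/

set_option autoImplicit false

namespace Pool.Agent.Helper7.SR

open Finset
open scoped Classical

/-- A closed alternating sequence of length `m` (all indices modulo `m`):
`x p -A- y p -B- x (p+1)`. -/
def Closed {X Y : Type*} (A : X → Y → Prop) (B : Y → X → Prop) (m : ℕ) (x : ℕ → X) (y : ℕ → Y) :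
    Prop :=
  (∀ p, x (p + m) = x p) ∧ (∀ p, y (p + m) = y p) ∧ (∀ p, A (x p) (y p)) ∧
    ∀ p, B (y p) (x (p + 1))

/-- The gain of a closed alternating sequence. -/
def gain {X Y : Type*} (a : X → ℝ) (b : Y → ℝ) (m : ℕ) (x : ℕ → X) (y : ℕ → Y) : ℝ :=
  ∑ p ∈ range m, (a (x p) - b (y p))

/-- (ALT) If there is a closed alternating sequence of length between `1` and `L` with positive
gain then there is one which is moreover simple and in which the `A`-matching `x i - y i` and the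
`B`-matching `y i - x (i+1)` are the only perfect matchings between the two vertex sets.

Proof.  Take the smallest `m ≥ 1` for which a closed sequence with positive gain exists.
CUT: if `p < r ≤ p + m` and `A (x r) (y p)` then `y p, x (p+1), y (p+1), ..., x r` closes to a
closed sequence of length `r - p` and gain `∑_{j ∈ [p,r)} c j`, `c j = a (x (j+1)) - b (y j)`;
the gain `G` of the whole is `∑_{j<m} c j`.  If `x i = x j` or `y i = y j` with `i < j < m`, CUT
with `(p, r) = (i, j)` and `(j, i + m)` gives two shorter closed sequences with total gain `G > 0`.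
If `τ` is a permutation with `A (x i) (y (τ i))` for all `i`, CUT with `(τ i, i)` if `τ i < i` and
`(τ i, i + m)` if `τ i ≥ i`: with `C p = ∑_{j<p} c j` the gains are `C i - C (τ i)` and
`G + C i - C (τ i)`; they sum to `F * G`, `F = #{i | τ i ≥ i}`; the ones with `τ i ≠ i` are `≤ 0`
by minimality, the others are `G`; so `F ≤ #{i | τ i = i}` and `τ = 1`.  For `B` apply the same to
the reversed system (`x' p = y p`, `y' p = x (p+1)`, `A' = B`, `B' = A`, `a' = -b`, `b' = -a`). -/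
def S_ALT.{u, v} : Prop :=
  ∀ (X : Type u) (Y : Type v) (A : X → Y → Prop) (B : Y → X → Prop) (a : X → ℝ) (b : Y → ℝ) (L : ℕ),
    (∃ m, 1 ≤ m ∧ m ≤ L ∧ ∃ (x : ℕ → X) (y : ℕ → Y), Closed A B m x y ∧ 0 < gain a b m x y) →
    ∃ m, 1 ≤ m ∧ m ≤ L ∧ ∃ (x : ℕ → X) (y : ℕ → Y), Closed A B m x y ∧ 0 < gain a b m x y ∧
      (∀ i j, i < m → j < m → x i = x j → i = j) ∧
      (∀ i j, i < m → j < m → y i = y j → i = j) ∧
      (∀ τ : Equiv.Perm (Fin m), (∀ i : Fin m, A (x i) (y (τ i))) → τ = 1) ∧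
      (∀ τ : Equiv.Perm (Fin m), (∀ i : Fin m, B (y i) (x ((τ i : ℕ) + 1))) → τ = 1)

/-- `x` can be exchanged against `y` in the independent set `T` (`y` lies in the fundamental
circuit of `x` with respect to `T`). -/
def Arc {α : Type*} (M : Matroid α) (T : Finset α) (x y : α) : Prop :=
  y ∈ T ∧ x ∉ T ∧ x ∈ M.closure (T : Set α) ∧ x ∉ M.closure ((T.erase y : Finset α) : Set α)

/-- (KRO) Krogdahl's lemma: if the exchange graph between `{x i}` and `{y i}` has only one
perfect matching then the simultaneous exchange is feasible.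

Proof.  Otherwise let `K ⊆ (T \ {y i}) ∪ {x i}` be a circuit and `J = {i | x i ∈ K}` (nonempty).
For `i ∈ J` there is `h i ∈ J`, `h i ≠ i` with `Arc (x (h i)) (y i)`; otherwise
`K \ {x i} ⊆ closure (T.erase (y i))`, so `x i` is in this closure.  On the periodic points of `h`
(nonempty, `h` is a bijection of them without fixed points) put `τ = h⁻¹`, elsewhere `τ = id`:
`Arc (x i) (y (τ i))` for all `i` and `τ ≠ 1`. -/
def S_KRO.{u} : Prop :=
  ∀ (α : Type u) (M : Matroid α) (T : Finset α) (m : ℕ) (x y : Fin m → α),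
    M.Indep (T : Set α) → Function.Injective x → Function.Injective y →
    (∀ i, Arc M T (x i) (y i)) →
    (∀ τ : Equiv.Perm (Fin m), (∀ i, Arc M T (x i) (y (τ i))) → τ = 1) →
    M.Indep (((T \ univ.image y) ∪ univ.image x : Finset α) : Set α)

/-- `R` lies in the ground set and the closure of every independent subset `I` of `R` contains at
most `q |I|` elements of `R`. -/
def Dens {α : Type*} (M : Matroid α) (R : Finset α) (q : ℕ) : Prop :=
  (R : Set α) ⊆ M.E ∧ ∀ I : Finset α, I ⊆ R → M.Indep (I : Set α) →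
    (R.filter (fun x => x ∈ M.closure (I : Set α))).card ≤ q * I.card

/-- (HALL) The elements of `R \ T` spanned by `T` can be assigned to elements of their
fundamental circuits so that every element of `T` is used at most `q - 1` times.

Proof.  Hall's theorem with the sets `{(y, j) | Arc M T x y, j < q - 1}`.  For a set `E` of
elements let `Q` be the set of all `y` with `Arc M T x y` for some `x ∈ E`; then
`E ∪ Q ⊆ R ∩ closure Q` (closures of subsets of an independent set intersect well), disjoint, so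
`|E| + |Q| ≤ q |Q|`. -/
def S_HALL.{u} : Prop :=
  ∀ (α : Type u) (M : Matroid α) (R T : Finset α) (q : ℕ), 1 ≤ q → T ⊆ R →
    M.Indep (T : Set α) → Dens M R q →
    ∃ π : α → α × ℕ,
      (∀ x, x ∈ R → x ∉ T → x ∈ M.closure (T : Set α) → Arc M T x (π x).1 ∧ (π x).2 < q - 1) ∧
      ∀ x x', x ∈ R → x ∉ T → x ∈ M.closure (T : Set α) →
        x' ∈ R → x' ∉ T → x' ∈ M.closure (T : Set α) → π x = π x' → x = x'

/-- The relation of the `M`-side; `none` on the left is the dummy element which adds nothing,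
`none` on the right the dummy which removes nothing. -/
def AR {α : Type*} (M : Matroid α) (R T : Finset α) : Option α → Option α → Prop
  | none, none => True
  | none, some y => y ∈ T
  | some x, none => x ∈ R ∧ x ∈ M.E ∧ x ∉ T ∧ x ∉ M.closure (T : Set α)
  | some x, some y => x ∈ R ∧ Arc M T x y

/-- Weights on the `x`-side. -/
def wa {α : Type*} (om : α → ℝ) : Option α → ℝ
  | none => 0
  | some x => om x

/-- Weights on the `y`-side. -/
def wb {α : Type*} (c : ℝ) (om : α → ℝ) : Option α → ℝ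
  | none => 0
  | some y => c * om y

/-- (EX1) The averaging argument: if `T` has too small weight there is a closed alternating
sequence of length `s + 1` with positive gain.

Proof.  Let `D = R \ T`, `Y' = T × [q-1]`.  `S_HALL` for `M` gives a bijection
`π : D ⊕ Y' ≃ Y' ⊕ D`: a spanned `x ∈ D` goes to its slot, a non-spanned `x ∈ D` to the dummy slot
`x`, the dummy `z_y` (`y ∈ Y'`) goes to `y` if `y` is not used and to the dummy slot of the user
of `y` otherwise; in the same way `N` gives `σ`.  `ρ = σ⁻¹ ∘ π` is a permutation of `D ⊕ Y'`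
and for every `v` the steps `v - π v - ρ v` are legal (`AR M` and, reversed, `AR N`).  For each
`v` close the window `v, ρ v, ..., ρ^(s-1) v` by the dummy `none`.  The sum of the gains of these
closed sequences is `s * ∑_{D} om - (s+1) * c * (q-1) * ∑_T om > 0`. -/
def S_EX1.{u} : Prop :=
  ∀ (α : Type u) (M N : Matroid α) (R T : Finset α) (q s : ℕ) (c : ℝ) (om : α → ℝ),
    1 ≤ q → 1 ≤ s → T ⊆ R → M.Indep (T : Set α) → N.Indep (T : Set α) → Dens M R q → Dens N R q →
    0 ≤ c → (∀ v, 0 ≤ om v) →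
    ((s : ℝ) + 1) * c * ((q : ℝ) - 1) * ∑ v ∈ T, om v < s * ∑ v ∈ R \ T, om v →
    ∃ (x : ℕ → Option α) (y : ℕ → Option α),
      Closed (AR M R T) (fun y x => AR N R T x y) (s + 1) x y ∧
      0 < gain (wa om) (wb c om) (s + 1) x y

/-- (EX2) A simple closed alternating sequence with unique perfect matchings gives a feasible
exchange: `E = {x i} \ {none}`, `Q = {y i} \ {none}`.  At most one `x i` is not spanned by `T`
in `M` (it is followed by the only dummy on the `y`-side); `S_KRO` for the other real `x i`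
(real `y i`), then add this one.  The same for `N` with the pairs `y i - x (i+1)`. -/
def S_EX2.{u} : Prop :=
  ∀ (α : Type u) (M N : Matroid α) (R T : Finset α) (m : ℕ) (c : ℝ) (om : α → ℝ)
    (x : ℕ → Option α) (y : ℕ → Option α),
    1 ≤ m → T ⊆ R → M.Indep (T : Set α) → N.Indep (T : Set α) →
    Closed (AR M R T) (fun y x => AR N R T x y) m x y →
    0 < gain (wa om) (wb c om) m x y →
    (∀ i j, i < m → j < m → x i = x j → i = j) →
    (∀ i j, i < m → j < m → y i = y j → i = j) →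
    (∀ τ : Equiv.Perm (Fin m), (∀ i : Fin m, AR M R T (x i) (y (τ i))) → τ = 1) →
    (∀ τ : Equiv.Perm (Fin m), (∀ i : Fin m, AR N R T (x ((τ i : ℕ) + 1)) (y i)) → τ = 1) →
    ∃ E Q : Finset α, E ⊆ R \ T ∧ Q ⊆ T ∧ E.card ≤ m ∧ Q.card ≤ m ∧
      M.Indep (((T \ Q) ∪ E : Finset α) : Set α) ∧ N.Indep (((T \ Q) ∪ E : Finset α) : Set α) ∧
      c * ∑ v ∈ Q, om v < ∑ v ∈ E, om v

/-- (EX) The exchange lemma.  From `S_EX1`, `S_ALT`, `S_EX2`. -/
def S_EX.{u} : Prop :=
  ∀ (α : Type u) (M N : Matroid α) (R T : Finset α) (q s : ℕ) (c : ℝ) (om : α → ℝ),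
    1 ≤ q → 1 ≤ s → T ⊆ R → M.Indep (T : Set α) → N.Indep (T : Set α) → Dens M R q → Dens N R q →
    0 ≤ c → (∀ v, 0 ≤ om v) →
    (∀ E Q : Finset α, E ⊆ R \ T → Q ⊆ T → E.card ≤ s + 1 → Q.card ≤ s + 1 →
      M.Indep (((T \ Q) ∪ E : Finset α) : Set α) → N.Indep (((T \ Q) ∪ E : Finset α) : Set α) →
      ∑ v ∈ E, om v ≤ c * ∑ v ∈ Q, om v) →
    (s : ℝ) * ∑ v ∈ R \ T, om v ≤ ((s : ℝ) + 1) * c * ((q : ℝ) - 1) * ∑ v ∈ T, om v

/-- (STEP) One common independent set which is well distributed with respect to a weighted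
family of sets.

Proof.  `T` minimises `F T = ∑ Φ j exp(-λ |T ∩ A j|)`, `λ = 1/(s+1)^2`, over the common
independent subsets of `R`.  With `c j = Φ j exp(-λ |T ∩ A j|)` and `om v = ∑_{j : v ∈ A j} c j`:
for an exchange as in `S_EX`, `u = λ (|E ∩ A j| - |Q ∩ A j|)` has `|u| ≤ h = 1/(s+1)` and
`exp(-u) - 1 ≤ -u + u^2 ≤ -u + h |u|`, so `F ≤ F'` gives
`(1-h) ∑_E om ≤ (1+h) ∑_Q om`, i.e. `c = (s+2)/s`.  `S_EX` gives
`∑_R om ≤ ((s+1)(s+2)/s^2) q ∑_T om`, hence `∑_T om ≥ (1-3/s)/q ∑_R om`.  Now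
`exp(-λ μ) ≥ exp(-λ n) (1 - λ (μ - n))` with `n = |T ∩ A j|`, `μ = (1-3/s)/q |R ∩ A j|`,
multiplied by `Φ j` and summed. -/
def S_STEP.{u, v} : Prop :=
  ∀ (α : Type u) (ι : Type v) [Fintype ι] (M N : Matroid α) (R : Finset α) (q s : ℕ)
    (Φ : ι → ℝ) (A : ι → Set α),
    1 ≤ q → 3 ≤ s → Dens M R q → Dens N R q → (∀ j, 0 ≤ Φ j) →
    ∃ T : Finset α, T ⊆ R ∧ M.Indep (T : Set α) ∧ N.Indep (T : Set α) ∧
      ∑ j, Φ j * Real.exp (-(1 / ((s : ℝ) + 1) ^ 2) * ((T.filter (fun v => v ∈ A j)).card : ℝ)) ≤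
      ∑ j, Φ j * Real.exp (-(1 / ((s : ℝ) + 1) ^ 2) *
        ((1 - 3 / (s : ℝ)) / q * ((R.filter (fun v => v ∈ A j)).card : ℝ)))

/-- `R` is a disjoint union of `m` common independent sets. -/
def Cover {α : Type*} (M N : Matroid α) (R : Finset α) (m : ℕ) : Prop :=
  ∃ T : Fin m → Finset α, (∀ i, M.Indep (T i : Set α) ∧ N.Indep (T i : Set α)) ∧
    (∀ i j, i ≠ j → Disjoint (T i) (T j)) ∧ R = univ.biUnion T

/-- (COV) Greedy cover.

Proof.  A common independent `T ⊆ R` of maximum size has `|R| ≤ 2 q |T|` (`S_EX` with `om = 1`,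
`c = 1`, `s = 1`).  Remove it and repeat; `Dens` is inherited by subsets; after `j` rounds at most
`|R| exp(-j/(2q))` elements are left. -/
def S_COV.{u} : Prop :=
  ∀ (α : Type u) (M N : Matroid α) (R : Finset α) (q : ℕ), 1 ≤ q → Dens M R q → Dens N R q →
    ∃ m : ℕ, (m : ℝ) ≤ 2 * q * Real.log ((R.card : ℝ) + 1) + 1 ∧ Cover M N R m

/-- (MAIN) The potential argument.

Proof.  `n = |R|`, `w = 1/(16(n+1))`, `λ = 1/(s+1)^2`, `L = log(1/w)/λ`, `K = 2k`,
`κ i = k - i (1 - 6/s)`, `κmin = (s/3)(L + 2 + log(16 k)/λ)`.  Index set: nonempty `I ⊆ R`,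
independent in `M` (`A = closure_M I`) resp. in `N`.  `R 0 = R`, `R (i+1) = R i \ T (i+1)`.
Invariant: `Ψ i = ∑ w^|I| exp(λ(|A ∩ R i| - κ i |I|)) ≤ 1/4 + i/(8K)`; at the start
`2((1+w)^n - 1) ≤ 1/4`.  `Ψ i ≤ 1` gives `|A ∩ R i| ≤ (κ i + L)|I|`, so `Dens (R i) q`,
`q = ⌈κ i + L⌉`.  While `κ i ≥ κmin` apply `S_STEP` with `Φ = w^|I| exp(λ(|A ∩ R i| - κ (i+1)|I|))`:
if `(1-3/s)|A ∩ R i|/q ≥ (1-6/s)|I|` the new term is at most the old one; otherwise
`|A ∩ R i| ≤ (1-3/s) q |I|` and the new term is at most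
`w^|I| exp(-λ|I|(3 κ i/s - L - 2)) ≤ w^|I|/(16k)`.  After `≤ (k-κmin)/(1-6/s) + 1` steps
`κ < κmin` and `S_COV` covers the rest. -/
def S_MAIN.{u} : Prop :=
  ∃ C : ℝ, 0 < C ∧ ∀ (α : Type u) (M N : Matroid α) (R : Finset α) (k s : ℕ), 1 ≤ k → 12 ≤ s →
    Dens M R k → Dens N R k →
    ∃ m : ℕ, (m : ℝ) ≤ k + 12 * k / s +
        C * (s : ℝ) ^ 3 * (Real.log (16 * ((R.card : ℝ) + 1) * k)) ^ 2 ∧ Cover M N R m

/-- (FIN) Choice of `s`. -/
def S_FIN.{u} : Prop :=
  ∃ C : ℝ, 0 < C ∧ ∀ (α : Type u) (M N : Matroid α) (R : Finset α) (k : ℕ), 1 ≤ k → 2 ≤ R.card →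
    Dens M R k → Dens N R k →
    ∃ m : ℕ, (m : ℝ) ≤ k + C * ((k : ℝ) ^ (3 / 4 : ℝ) * (Real.log R.card) ^ (1 / 2 : ℝ) +
        (Real.log R.card) ^ 2) ∧ Cover M N R m

/-- (TOP) The final statement: general two-matroid form and the form for partitions into blocks
(the wording of frozen statement S11089).

Proof.  If the ground set is a union of `k` independent sets then `Dens` holds with `q = k`
(`|A| ≤ ∑ |A ∩ B i| ≤ k r(A)`).  For the second part `N` is the partition matroid of the blocks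
(`N` independent: at most one element in each block), `n = k^2`, and `log n = 2 log k`.  For the
`k - 1` sets take the largest ones of the `m` sets: they contain at least `k^2 (k-1)/m` elements. -/
def S_TOP : Prop :=
  ∃ C : ℝ, 0 < C ∧
    (∀ (α : Type) (M N : Matroid α) (k : ℕ), 1 ≤ k → M.E = N.E → M.E.Finite → 2 ≤ M.E.ncard →
      (∃ A : Fin k → Set α, (∀ i, M.Indep (A i)) ∧ (⋃ i, A i) = M.E) →
      (∃ A : Fin k → Set α, (∀ i, N.Indep (A i)) ∧ (⋃ i, A i) = M.E) →
      ∃ (m : ℕ) (T : Fin m → Set α),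
        (m : ℝ) ≤ k + C * ((k : ℝ) ^ (3 / 4 : ℝ) * (Real.log M.E.ncard) ^ (1 / 2 : ℝ) +
          (Real.log M.E.ncard) ^ 2) ∧
        (∀ j, M.Indep (T j) ∧ N.Indep (T j)) ∧ (Pairwise fun j j' => Disjoint (T j) (T j')) ∧
        (⋃ j, T j) = M.E) ∧
    ∀ (α : Type) (M : Matroid α) (k : ℕ),
      2 ≤ k →
      M.Loopless →
      M.eRank = (k : ℕ∞) →
      (∃ B : Fin k → Set α, (∀ i, M.IsBase (B i)) ∧
          (Pairwise fun i j => Disjoint (B i) (B j)) ∧ (⋃ i, B i) = M.E) →
      ∀ P : Fin k → Set α,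
        (∀ i, (P i).encard = (k : ℕ∞)) →
        (Pairwise fun i j => Disjoint (P i) (P j)) →
        (⋃ i, P i) = M.E →
        (∃ (m : ℕ) (T : Fin m → Set α),
          (m : ℝ) ≤ k + C * (k : ℝ) ^ (3 / 4 : ℝ) * (Real.log k) ^ (1 / 2 : ℝ) ∧
          (∀ j, M.Indep (T j)) ∧ (∀ j, ∀ i, (T j ∩ P i).encard ≤ 1) ∧
          (Pairwise fun j j' => Disjoint (T j) (T j')) ∧ (⋃ j, T j) = M.E) ∧
        ∃ T : Fin (k - 1) → Set α,
          (∀ j, M.Indep (T j)) ∧ (∀ j, ∀ i, (T j ∩ P i).encard ≤ 1) ∧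
          (Pairwise fun j j' => Disjoint (T j) (T j')) ∧
          (k : ℝ) ^ 2 - C * (k : ℝ) ^ (7 / 4 : ℝ) * (Real.log k) ^ (1 / 2 : ℝ) ≤
            ((⋃ j, T j).ncard : ℝ)

end Pool.Agent.Helper7.SR
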