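import Pool.Agent.Helper7.SR.Goals

set_option autoImplicit false

namespace Pool.Agent.Helper7.SR

open Finset

/-- The exchange lemma from its three parts. -/
theorem s_ex.{u} (h1 : S_EX1.{u}) (h2 : S_EX2.{u}) (h3 : S_ALT.{u, u}) : S_EX.{u} := by
  classical
  intro α M N R T q s c om hq hs hTR hM hN hdM hdN hc hom hno
  by_contra hcon
  push Not at hcon
  obtain ⟨x, y, hcl, hg⟩ := h1 α M N R T q s c om hq hs hTR hM hN hdM hdN hc hom hcon
  obtain ⟨m, hm1, hmL, x', y', hcl', hg', hx', hy', hA', hB'⟩ :=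
    h3 (Option α) (Option α) (AR M R T) (fun y x => AR N R T x y) (wa om) (wb c om) (s + 1)
      ⟨s + 1, by omega, le_refl _, x, y, hcl, hg⟩
  obtain ⟨E, Q, hE, hQ, hEc, hQc, hMi, hNi, hlt⟩ :=
    h2 α M N R T m c om x' y' hm1 hTR hM hN hcl' hg' hx' hy' hA' hB'
  have := hno E Q (by convert hE) hQ (le_trans hEc hmL) (le_trans hQc hmL)
    (by convert hMi) (by convert hNi)
  exact absurd this (not_le.mpr hlt)

end Pool.Agent.Helper7.SR
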